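import Pool.Agent.Helper99.SZ.Stmts4

/-!
# The bound for curves with one rational point of order two: the end
-/

set_option autoImplicit false

namespace Pool.Helper99.SZ

open NumberField

theorem qmn_sub (P T : Finset ℕ) (hT : T ⊆ P) (hP : ∀ p ∈ P, p.Prime) (w f : ℕ → ℝ)
    (hw : ∀ p ∈ P, 0 ≤ w p) (hf : ∀ p ∈ T, f p ≤ w p) :
    ∑ p ∈ T, f p * Real.log p ≤ ∑ p ∈ P, w p * Real.log p := by
  have hlog : ∀ p ∈ P, 0 ≤ Real.log (p : ℝ) := fun p hp =>
    Real.log_nonneg (by exact_mod_cast (hP p hp).one_lt.le)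
  calc ∑ p ∈ T, f p * Real.log p ≤ ∑ p ∈ T, w p * Real.log p :=
        Finset.sum_le_sum fun p hp => mul_le_mul_of_nonneg_right (hf p hp) (hlog p (hT hp))
    _ ≤ _ := Finset.sum_le_sum_of_subset_of_nonneg hT fun p hp _ =>
        mul_nonneg (hw p hp) (hlog p hp)

theorem qmn_log (n : ℕ) :
    Real.log n = ∑ p ∈ n.primeFactors, (n.factorization p : ℝ) * Real.log p := by
  rw [Real.log_nat_eq_sum_factorization]
  rfl

theorem qmn_emb (K : Type) [Field K] [NumberField K] (τ : K →+* K) (β : 𝓞 K) (a b : ℤ)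
    (hF : QF K τ β a b) (σ : Fin 2 → (K →+* ℂ)) (hσ : QS K τ σ) :
    ‖σ 0 (β : K)‖ * ‖σ 1 (β : K)‖ = |(b : ℝ)| ∧ |(a : ℝ)| ≤ ‖σ 0 (β : K)‖ + ‖σ 1 (β : K)‖ ∧
    ‖σ 0 (β : K) - σ 1 (β : K)‖ ^ 2 = |((a ^ 2 - 4 * b : ℤ) : ℝ)| := by
  have h1 : σ 0 (β : K) * σ 1 (β : K) = (b : ℂ) := by
    have := congrArg (σ 0) hF.mul
    rw [map_mul, hσ.c0, map_intCast] at this
    exact this
  have h2 : σ 0 (β : K) + σ 1 (β : K) = -(a : ℂ) := by
    have := congrArg (σ 0) hF.add
    rw [map_add, hσ.c0, map_neg, map_intCast] at this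
    exact this
  refine ⟨?_, ?_, ?_⟩
  · rw [← norm_mul, h1, Complex.norm_intCast]
  · have h3 : |(a : ℝ)| = ‖σ 0 (β : K) + σ 1 (β : K)‖ := by
      rw [h2, norm_neg, Complex.norm_intCast]
    rw [h3]
    exact norm_add_le _ _
  · rw [← norm_pow]
    have h3 : (σ 0 (β : K) - σ 1 (β : K)) ^ 2 = ((a ^ 2 - 4 * b : ℤ) : ℂ) := by
      have h4 : (σ 0 (β : K) - σ 1 (β : K)) ^ 2 = (σ 0 (β : K) + σ 1 (β : K)) ^ 2 -
          4 * (σ 0 (β : K) * σ 1 (β : K)) := by ring
      rw [h4, h1, h2]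
      push_cast
      ring
    rw [h3, Complex.norm_intCast]

theorem qmn_swap (K : Type) [Field K] [NumberField K] (τ : K →+* K) (σ : Fin 2 → (K →+* ℂ))
    (hσ : QS K τ σ) : QS K τ (fun i => σ (Equiv.swap 0 1 i)) := by
  have e0 : (Equiv.swap (0 : Fin 2) 1) 0 = 1 := Equiv.swap_apply_left _ _
  have e1 : (Equiv.swap (0 : Fin 2) 1) 1 = 0 := Equiv.swap_apply_right _ _
  refine ⟨?_, ?_, ?_, ?_, ?_, ?_⟩
  · exact hσ.inj.comp (Equiv.swap (0 : Fin 2) 1).injective
  · intro x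
    simp only [e0, e1]
    exact hσ.c1 x
  · intro x
    simp only [e0, e1]
    exact hσ.c0 x
  · intro φ
    obtain ⟨i, hi⟩ := hσ.all φ
    exact ⟨(Equiv.swap (0 : Fin 2) 1) i, by simpa using hi⟩
  · intro x
    rw [← hσ.nrm x]
    exact Equiv.prod_comp (Equiv.swap (0 : Fin 2) 1) (fun i => ‖σ i (x : K)‖)
  · rcases hσ.cfg with h | h
    · exact Or.inl fun i x => h _ x
    · refine Or.inr fun x => ?_
      simp only [e0, e1]
      rw [h x, Complex.conj_conj]

/-- the final growth -/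
theorem qmn_grow (C4 δ R sM B0 S : ℝ) (hδ : 0 < δ) (hδ2 : 28 * δ ≤ 1) (hC4 : 1 ≤ C4) (hR : 1 ≤ R)
    (hsM : 1 ≤ sM) (hsM2 : Real.log sM ≤ R) (hB0 : 1 ≤ B0) (hB02 : Real.log B0 ≤ R) (hS : 1 ≤ S)
    (h : S ≤ C4 * R ^ 10 * sM * B0 * Real.exp (δ * (R + Real.log S))) :
    S ≤ C4 ^ 2 * ((Nat.factorial 10 : ℝ) / δ ^ 10) * sM * B0 * Real.exp (28 * δ * R) := by
  have hY : 0 < C4 * R ^ 10 * sM * B0 := by positivity
  have hlogS : 0 ≤ Real.log S := Real.log_nonneg hS
  have hlogC : 0 ≤ Real.log C4 := Real.log_nonneg hC4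
  have h1 : Real.log S ≤ Real.log (C4 * R ^ 10 * sM * B0) + δ * (R + Real.log S) := by
    have := Real.log_le_log (by linarith) h
    rwa [Real.log_mul hY.ne' (Real.exp_pos _).ne', Real.log_exp] at this
  have h2 : Real.log (C4 * R ^ 10 * sM * B0) ≤ Real.log C4 + 12 * R := by
    rw [Real.log_mul (by positivity) (by positivity), Real.log_mul (by positivity) (by positivity),
      Real.log_mul (by positivity) (by positivity), Real.log_pow]
    have := Real.log_le_sub_one_of_pos (show 0 < R by linarith)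
    push_cast
    linarith
  obtain ⟨Y, hYd⟩ : ∃ Y : ℝ, Y = Real.log (C4 * R ^ 10 * sM * B0) := ⟨_, rfl⟩
  obtain ⟨L, hL⟩ : ∃ L : ℝ, L = Real.log S := ⟨_, rfl⟩
  rw [← hYd, ← hL] at h1
  rw [← hYd] at h2
  rw [← hL] at hlogS
  have h3 : L ≤ Y + Real.log C4 + 27 * δ * R := by
    -- (1 - δ) L ≤ Y + δ R
    have e1 : (1 - δ) * L ≤ Y + δ * R := by linarith
    have e2 : L ≤ (1 + 2 * δ) * (Y + δ * R) := by
      have e3 : (1 + 2 * δ) * ((1 - δ) * L) ≤ (1 + 2 * δ) * (Y + δ * R) :=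
        mul_le_mul_of_nonneg_left e1 (by linarith)
      have e4 : L ≤ (1 + 2 * δ) * ((1 - δ) * L) := by
        have : 0 ≤ δ * (1 - 2 * δ) * L := by
          have : 0 ≤ 1 - 2 * δ := by linarith
          positivity
        nlinarith
      linarith
    have e5 : 2 * δ * (Y + δ * R) ≤ 2 * δ * (Real.log C4 + 13 * R) := by
      refine mul_le_mul_of_nonneg_left ?_ (by linarith)
      nlinarith
    have e6 : 2 * δ * Real.log C4 ≤ Real.log C4 := by nlinarith
    nlinarith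
  have h4 : S = Real.exp L := by rw [hL, Real.exp_log (by linarith)]
  have h5 : R ^ 10 ≤ ((Nat.factorial 10 : ℝ) / δ ^ 10) * Real.exp (δ * R) := by
    have h1 : (δ * R) ^ 10 / (Nat.factorial 10 : ℝ) ≤ Real.exp (δ * R) :=
      Real.pow_div_factorial_le_exp _ (by positivity) _
    have h2 : (0 : ℝ) < Nat.factorial 10 := by exact_mod_cast Nat.factorial_pos 10
    rw [div_le_iff₀ h2] at h1
    rw [div_mul_eq_mul_div, le_div_iff₀ (by positivity)]
    calc R ^ 10 * δ ^ 10 = (δ * R) ^ 10 := by rw [mul_pow]; ring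
      _ ≤ _ := h1
      _ = _ := by ring
  calc S = Real.exp L := h4
    _ ≤ Real.exp (Y + Real.log C4 + 27 * δ * R) := Real.exp_le_exp.2 h3
    _ = (C4 * R ^ 10 * sM * B0) * C4 * Real.exp (27 * δ * R) := by
        rw [Real.exp_add, Real.exp_add, hYd, Real.exp_log hY, Real.exp_log (by linarith)]
    _ = C4 ^ 2 * sM * B0 * Real.exp (27 * δ * R) * R ^ 10 := by ring
    _ ≤ C4 ^ 2 * sM * B0 * Real.exp (27 * δ * R) *
        (((Nat.factorial 10 : ℝ) / δ ^ 10) * Real.exp (δ * R)) :=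
        mul_le_mul_of_nonneg_left h5 (by positivity)
    _ = C4 ^ 2 * ((Nat.factorial 10 : ℝ) / δ ^ 10) * sM * B0 *
        (Real.exp (27 * δ * R) * Real.exp (δ * R)) := by ring
    _ = _ := by
        rw [← Real.exp_add]
        congr 2
        ring

/-- products with odd exponents -/
theorem qmn_M (D : ℕ) : 1 ≤ (∏ q ∈ D.primeFactors, q ^ (D.factorization q % 2)) ∧
    Real.log ((∏ q ∈ D.primeFactors, q ^ (D.factorization q % 2) : ℕ) : ℝ) ≤
      ∑ q ∈ D.primeFactors, Real.log q := by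
  have hp : ∀ q ∈ D.primeFactors, 0 < q := fun q hq => (Nat.prime_of_mem_primeFactors hq).pos
  constructor
  · exact Nat.one_le_iff_ne_zero.2 (Finset.prod_ne_zero_iff.2 fun q hq =>
      pow_ne_zero _ (hp q hq).ne')
  · rw [Nat.cast_prod, Real.log_prod (fun q hq => by
      rw [Nat.cast_pow]
      exact pow_ne_zero _ (by exact_mod_cast (hp q hq).ne'))]
    refine Finset.sum_le_sum fun q hq => ?_
    rw [Nat.cast_pow, Real.log_pow]
    have h1 : (0 : ℝ) ≤ Real.log q := Real.log_nonneg (by exact_mod_cast hp q hq)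
    have h2 : ((D.factorization q % 2 : ℕ) : ℝ) ≤ 1 := by
      have : D.factorization q % 2 ≤ 1 := by omega
      exact_mod_cast this
    nlinarith

/-- a large term -/
theorem qmn_pig (T : Finset ℕ) (f : ℕ → ℝ) (c N : ℝ) (hc : 0 ≤ c) (hN : (T.card : ℝ) ≤ N)
    (h : N * c < ∑ q ∈ T, f q) : ∃ q ∈ T, c ≤ f q := by
  by_contra hne
  push Not at hne
  have h1 : ∑ q ∈ T, f q ≤ T.card • c := Finset.sum_le_card_nsmul T f c fun q hq => (hne q hq).le
  rw [nsmul_eq_mul] at h1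
  have h2 : (T.card : ℝ) * c ≤ N * c := mul_le_mul_of_nonneg_right hN hc
  linarith

/-- the sums over the primes -/
theorem qmn_sums (b d : ℤ) (hb : b ≠ 0) (hd : d ≠ 0) (R : ℝ)
    (hR : 1 + ∑ p ∈ (b * d).natAbs.primeFactors, (if (p : ℤ) ∣ b ∧ (p : ℤ) ∣ d then
      ((b.natAbs.factorization p : ℝ) + (d.natAbs.factorization p : ℝ)) else 1) *
        Real.log p ≤ R) :
    ∑ q ∈ d.natAbs.primeFactors, Real.log q ≤ R - 1 ∧
    ∑ p ∈ b.natAbs.primeFactors.filter (fun p : ℕ => (p : ℤ) ∣ d),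
      (b.natAbs.factorization p : ℝ) * Real.log p ≤ R - 1 ∧
    ∑ q ∈ d.natAbs.primeFactors.filter (fun q : ℕ => (q : ℤ) ∣ b),
      (d.natAbs.factorization q : ℝ) * Real.log q ≤ R - 1 ∧
    ∑ p ∈ b.natAbs.primeFactors.filter (fun p : ℕ => ¬ (p : ℤ) ∣ d), Real.log p ≤ R - 1 := by
  have hb' : b.natAbs ≠ 0 := Int.natAbs_ne_zero.2 hb
  have hd' : d.natAbs ≠ 0 := Int.natAbs_ne_zero.2 hd
  have hun : (b * d).natAbs.primeFactors = b.natAbs.primeFactors ∪ d.natAbs.primeFactors := by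
    rw [Int.natAbs_mul, Nat.primeFactors_mul hb' hd']
  have hPp : ∀ p ∈ (b * d).natAbs.primeFactors, p.Prime := fun p hp =>
    Nat.prime_of_mem_primeFactors hp
  have hfac : ∀ (x : ℤ), x ≠ 0 → ∀ p : ℕ, p.Prime → (p : ℤ) ∣ x →
      (1 : ℝ) ≤ (x.natAbs.factorization p : ℝ) := by
    intro x hx p hp hpx
    have := hp.factorization_pos_of_dvd (Int.natAbs_ne_zero.2 hx) (Int.natCast_dvd.1 hpx)
    exact_mod_cast this
  obtain ⟨w, hw⟩ : ∃ w : ℕ → ℝ, w = fun p : ℕ => if (p : ℤ) ∣ b ∧ (p : ℤ) ∣ d then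
      ((b.natAbs.factorization p : ℝ) + (d.natAbs.factorization p : ℝ)) else 1 := ⟨_, rfl⟩
  have hw1 : ∀ p ∈ (b * d).natAbs.primeFactors, 1 ≤ w p := by
    intro p hp
    simp only [hw]
    split_ifs with h
    · have h1 := hfac b hb p (hPp p hp) h.1
      have h2 := hfac d hd p (hPp p hp) h.2
      linarith
    · exact le_rfl
  have hw0 : ∀ p ∈ (b * d).natAbs.primeFactors, 0 ≤ w p := fun p hp =>
    zero_le_one.trans (hw1 p hp)
  have hsum : ∑ p ∈ (b * d).natAbs.primeFactors, w p * Real.log p ≤ R - 1 := by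
    simp only [hw]
    linarith
  have hbP : b.natAbs.primeFactors ⊆ (b * d).natAbs.primeFactors := by
    rw [hun]
    exact Finset.subset_union_left
  have hdP : d.natAbs.primeFactors ⊆ (b * d).natAbs.primeFactors := by
    rw [hun]
    exact Finset.subset_union_right
  refine ⟨?_, ?_, ?_, ?_⟩
  · have := qmn_sub _ _ hdP hPp w (fun _ => 1) hw0 fun p hp => hw1 p (hdP hp)
    simp only [one_mul] at this
    linarith
  · have := qmn_sub _ (b.natAbs.primeFactors.filter (fun p : ℕ => ((p : ℤ) ∣ d)))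
      ((Finset.filter_subset _ _).trans hbP) hPp w (fun p => (b.natAbs.factorization p : ℝ)) hw0
      fun p hp => by
        rw [Finset.mem_filter] at hp
        have h1 : (p : ℤ) ∣ b := Int.natCast_dvd.2 (Nat.dvd_of_mem_primeFactors hp.1)
        simp only [hw, if_pos (And.intro h1 hp.2)]
        have := hfac d hd p (Nat.prime_of_mem_primeFactors hp.1) hp.2
        linarith
    linarith
  · have := qmn_sub _ (d.natAbs.primeFactors.filter (fun q : ℕ => ((q : ℤ) ∣ b)))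
      ((Finset.filter_subset _ _).trans hdP) hPp w (fun p => (d.natAbs.factorization p : ℝ)) hw0
      fun p hp => by
        rw [Finset.mem_filter] at hp
        have h1 : (p : ℤ) ∣ d := Int.natCast_dvd.2 (Nat.dvd_of_mem_primeFactors hp.1)
        simp only [hw, if_pos (And.intro hp.2 h1)]
        have := hfac b hb p (Nat.prime_of_mem_primeFactors hp.1) hp.2
        linarith
    linarith
  · have := qmn_sub _ (b.natAbs.primeFactors.filter (fun p : ℕ => ¬ ((p : ℤ) ∣ d)))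
      ((Finset.filter_subset _ _).trans hbP) hPp w (fun _ => 1) hw0
      fun p hp => hw1 p (hbP (Finset.mem_filter.1 hp).1)
    simp only [one_mul] at this
    linarith

theorem qmn_core (hQTP : ST_QTP) (hQTA : ST_QTA) (hQEM : ST_QEM) (hQDI : ST_QDI) (hQID : ST_QID)
    (hQCU : ST_QCU) (δ : ℝ) (hδ : 0 < δ) : ∃ C4 : ℝ, 1 ≤ C4 ∧
    ∀ (K : Type) [Field K] [NumberField K] (τ : K →+* K) (β : 𝓞 K) (a b d : ℤ),
    QF K τ β a b → d = a ^ 2 - 4 * b → d ≠ 0 →
    (∀ k : ℤ, k ≠ 0 → ((β : K) / τ (β : K)) ^ k ≠ 1) →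
    ∀ R B : ℝ, 1 ≤ B →
    (∀ q ∈ d.natAbs.primeFactors, ¬ (q : ℤ) ∣ b → Even (d.natAbs.factorization q) →
      (q : ℝ) ≤ B) →
    1 + ∑ p ∈ (b * d).natAbs.primeFactors, (if (p : ℤ) ∣ b ∧ (p : ℤ) ∣ d then
      ((b.natAbs.factorization p : ℝ) + (d.natAbs.factorization p : ℝ)) else 1) *
        Real.log p ≤ R →
    ∃ S0 : ℝ, 0 ≤ S0 ∧ |(a : ℝ)| + |(b : ℝ)| + |(d : ℝ)| ≤ 7 * Real.exp (2 * S0) ∧
      1 + 2 * S0 ≤ C4 * R ^ 10 * Real.sqrt ((∏ q ∈ d.natAbs.primeFactors,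
        q ^ (d.natAbs.factorization q % 2) : ℕ) : ℝ) * B *
          Real.exp (δ * (R + Real.log (1 + 2 * S0))) := by
  obtain ⟨C1, hC1, hTP⟩ := hQTP δ 16 hδ (by norm_num)
  obtain ⟨C2, hC2, hTA⟩ := hQTA δ 16 hδ (by norm_num)
  refine ⟨314928 * (C1 + C2), by linarith, ?_⟩
  intro K _ _ τ β a b d hF hd hd0 hroot R B hB hq hR
  have hb0 : b ≠ 0 := hF.b0
  obtain ⟨F1, F2, F3, F4⟩ := qmn_sums b d hb0 hd0 R hR
  have hlq : ∀ q ∈ d.natAbs.primeFactors, 0 ≤ Real.log (q : ℝ) := fun q hq =>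
    Real.log_nonneg (by exact_mod_cast (Nat.prime_of_mem_primeFactors hq).one_lt.le)
  have hR1 : 1 ≤ R := by
    have := Finset.sum_nonneg hlq
    linarith
  have hlogR : Real.log R ≤ R := by
    have := Real.log_le_sub_one_of_pos (show 0 < R by linarith)
    linarith
  -- the number M
  obtain ⟨M, hM⟩ : ∃ M : ℕ, M = ∏ q ∈ d.natAbs.primeFactors,
    q ^ (d.natAbs.factorization q % 2) := ⟨_, rfl⟩
  obtain ⟨hM1, hM2⟩ := qmn_M d.natAbs
  have hdisc := hQDI K τ β a b d hF hd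
  rw [← hM] at hM1 hM2 hdisc ⊢
  have hMR : Real.log (M : ℝ) ≤ R - 1 := hM2.trans F1
  have hM1' : (1 : ℝ) ≤ (M : ℝ) := by exact_mod_cast hM1
  obtain ⟨sM, hsM⟩ : ∃ sM : ℝ, sM = Real.sqrt (M : ℝ) := ⟨_, rfl⟩
  rw [← hsM]
  have hsM1 : 1 ≤ sM := by
    rw [hsM, ← Real.sqrt_one]
    exact Real.sqrt_le_sqrt hM1'
  have hlsM : Real.log sM ≤ R / 2 := by
    rw [hsM, Real.log_sqrt (by linarith)]
    linarith
  have hd1 : (1 : ℝ) ≤ |(NumberField.discr K : ℝ)| := by
    have := Int.one_le_abs (NumberField.discr_ne_zero K)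
    exact_mod_cast this
  have hlog2 := Real.log_two_lt_d9
  have hlog2' := Real.log_two_gt_d9
  have hlog4 : Real.log 4 ≤ 1.4 := by
    rw [show (4 : ℝ) = 2 ^ 2 by norm_num, Real.log_pow]
    push_cast
    linarith
  have hlogd : Real.log |(NumberField.discr K : ℝ)| ≤ 3 * R := by
    have := Real.log_le_log (by linarith) hdisc
    rw [Real.log_mul (by norm_num) (by linarith)] at this
    linarith
  obtain ⟨t, ht⟩ : ∃ t : ℝ, t = 2 * Real.sqrt |(NumberField.discr K : ℝ)| := ⟨_, rfl⟩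
  have ht1 : 1 ≤ t := by
    have : 1 ≤ Real.sqrt |(NumberField.discr K : ℝ)| := by
      rw [← Real.sqrt_one]
      exact Real.sqrt_le_sqrt hd1
    linarith
  have ht4 : t ≤ 4 * sM := by
    have h1 : Real.sqrt |(NumberField.discr K : ℝ)| ≤ Real.sqrt (2 ^ 2 * M) :=
      Real.sqrt_le_sqrt (by linarith)
    rw [Real.sqrt_mul (by norm_num), Real.sqrt_sq (by norm_num), ← hsM] at h1
    linarith
  have hlogt : Real.log t ≤ 2 * R := by
    have := Real.log_le_log (by linarith) ht4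
    rw [Real.log_mul (by norm_num) (by linarith)] at this
    linarith
  have hlogt0 : 0 ≤ Real.log t := Real.log_nonneg ht1
  obtain ⟨ν, hν⟩ : ∃ ν : ℝ, ν = 4 * sM * (3 * R) ^ 8 := ⟨_, rfl⟩
  have hIDν : ((BK.ID K (2 * Real.sqrt |(NumberField.discr K : ℝ)|)).ncard : ℝ) ≤ ν := by
    have h1 := hQID K hF.deg t ht1
    rw [← ht]
    refine h1.trans ?_
    rw [hν]
    refine mul_le_mul ht4 ?_ (by positivity) (by linarith)
    exact pow_le_pow_left₀ (by linarith) (by linarith) 8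
  have hν1 : 1 ≤ ν := by
    rw [hν]
    have h1 : 1 ≤ (3 * R) ^ 8 := one_le_pow₀ (by linarith)
    have h2 : 1 * 1 ≤ (4 * sM) * (3 * R) ^ 8 :=
      mul_le_mul (by linarith) h1 (by norm_num) (by linarith)
    linarith
  -- the embeddings
  obtain ⟨σ, hσ, hle⟩ : ∃ σ : Fin 2 → (K →+* ℂ), QS K τ σ ∧
      ‖σ 0 (β : K)‖ ≤ ‖σ 1 (β : K)‖ := by
    obtain ⟨σ, hσ⟩ := hQEM K τ β a b hF
    rcases le_total ‖σ 0 (β : K)‖ ‖σ 1 (β : K)‖ with h | h
    · exact ⟨σ, hσ, h⟩
    · refine ⟨_, qmn_swap K τ σ hσ, ?_⟩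
      simpa using h
  obtain ⟨E1, E2, E3⟩ := qmn_emb K τ β a b hF σ hσ
  rw [← hd] at E3
  obtain ⟨x0, hx0⟩ : ∃ x0 : ℝ, x0 = ‖σ 0 (β : K)‖ := ⟨_, rfl⟩
  obtain ⟨x1, hx1⟩ : ∃ x1 : ℝ, x1 = ‖σ 1 (β : K)‖ := ⟨_, rfl⟩
  rw [← hx0, ← hx1] at E1 E2 hle
  have hb1 : (1 : ℝ) ≤ |(b : ℝ)| := by
    have := Int.one_le_abs hb0
    exact_mod_cast this
  have hx00 : 0 ≤ x0 := by rw [hx0]; exact norm_nonneg _
  have hx0p : 0 < x0 := by
    rcases hx00.eq_or_lt with h | h
    · rw [← h, zero_mul] at E1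
      linarith
    · exact h
  have hx11 : 1 ≤ x1 := by
    by_contra hlt
    push Not at hlt
    have : x0 * x1 ≤ 1 * x1 := mul_le_mul_of_nonneg_right (by linarith) (by linarith)
    linarith
  obtain ⟨S0, hS0⟩ : ∃ S0 : ℝ, S0 = Real.log x1 := ⟨_, rfl⟩
  have hS00 : 0 ≤ S0 := by rw [hS0]; exact Real.log_nonneg hx11
  have hexp : Real.exp S0 = x1 := by rw [hS0, Real.exp_log (by linarith)]
  have hexp2 : Real.exp (2 * S0) = x1 ^ 2 := by
    rw [two_mul, Real.exp_add, hexp]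
    ring
  have hlx0 : Real.log x0 ≤ S0 := by rw [hS0]; exact Real.log_le_log hx0p hle
  have hlx0' : -S0 ≤ Real.log x0 := by
    have h1 : Real.log (x0 * x1) = Real.log x0 + Real.log x1 :=
      Real.log_mul hx0p.ne' (by linarith)
    have h2 : 0 ≤ Real.log (x0 * x1) := Real.log_nonneg (by linarith)
    rw [hS0]
    linarith
  have hlogb : Real.log |(b : ℝ)| ≤ 2 * S0 := by
    rw [← E1, Real.log_mul hx0p.ne' (by linarith), ← hS0]
    linarith
  have hdn : ‖σ 0 (β : K) - σ 1 (β : K)‖ ≤ x0 + x1 := by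
    rw [hx0, hx1]
    exact norm_sub_le _ _
  refine ⟨S0, hS00, ?_, ?_⟩
  · rw [hexp2, ← E3, ← E1]
    have h1 : ‖σ 0 (β : K) - σ 1 (β : K)‖ ^ 2 ≤ (x0 + x1) ^ 2 :=
      pow_le_pow_left₀ (norm_nonneg _) hdn 2
    have h2 : (x0 + x1) ^ 2 ≤ (2 * x1) ^ 2 := pow_le_pow_left₀ (by linarith) (by linarith) 2
    have h3 : x0 * x1 ≤ x1 * x1 := mul_le_mul_of_nonneg_right hle (by linarith)
    have h4 : x1 ≤ x1 * x1 := le_mul_of_one_le_left (by linarith) hx11
    have h5 : (2 * x1) ^ 2 = 4 * x1 ^ 2 := by ring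
    have h6 : x1 * x1 = x1 ^ 2 := by ring
    linarith
  -- the size
  obtain ⟨S, hS⟩ : ∃ S : ℝ, S = 1 + 2 * S0 := ⟨_, rfl⟩
  rw [← hS]
  have hS1 : 1 ≤ S := by linarith
  have hlogS : 0 ≤ Real.log S := Real.log_nonneg hS1
  obtain ⟨R', hR'⟩ : ∃ R' : ℝ, R' = R + Real.log S := ⟨_, rfl⟩
  rw [← hR']
  have hRR' : R ≤ R' := by linarith
  obtain ⟨E, hE⟩ : ∃ E : ℝ, E = Real.exp (δ * R') := ⟨_, rfl⟩
  rw [← hE]
  have hE1 : 1 ≤ E := by
    rw [hE]
    exact Real.one_le_exp (mul_nonneg hδ.le (by linarith))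
  have hR10 : R ≤ R ^ 10 := le_self_pow₀ hR1 (by norm_num)
  have hR910 : R ^ 9 ≤ R ^ 10 := pow_le_pow_right₀ hR1 (by norm_num)
  -- the trivial cases
  have hRHS : 314928 * (C1 + C2) * R ≤ 314928 * (C1 + C2) * R ^ 10 * sM * B * E := by
    have h1 : 314928 * (C1 + C2) * R ≤ 314928 * (C1 + C2) * R ^ 10 :=
      mul_le_mul_of_nonneg_left hR10 (by linarith)
    have h2 : 0 ≤ 314928 * (C1 + C2) * R ^ 10 := by positivity
    have h3 : 1 ≤ sM * B * E :=
      one_le_mul_of_one_le_of_one_le (one_le_mul_of_one_le_of_one_le hsM1 hB) hE1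
    calc 314928 * (C1 + C2) * R ≤ 314928 * (C1 + C2) * R ^ 10 := h1
      _ ≤ 314928 * (C1 + C2) * R ^ 10 * (sM * B * E) := le_mul_of_one_le_right h2 h3
      _ = _ := by ring
  rcases le_or_gt S0 (2 * R) with hsmall | hbig
  · refine le_trans ?_ hRHS
    have h5 : 5 * R ≤ 314928 * (C1 + C2) * R :=
      mul_le_mul_of_nonneg_right (by linarith) (by linarith)
    linarith
  have hS01 : 1 ≤ S0 := by linarith
  have hS3 : S ≤ 3 * S0 := by linarith
  -- the primes
  obtain ⟨s, hs⟩ : ∃ s : Finset ℕ, s = b.natAbs.primeFactors.filter (fun p : ℕ => ¬ ((p : ℤ) ∣ d)) :=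
    ⟨_, rfl⟩
  have hsmem : ∀ p ∈ s, p.Prime ∧ (p : ℤ) ∣ b ∧ ¬ (p : ℤ) ∣ a := by
    intro p hp
    rw [hs, Finset.mem_filter] at hp
    have h1 : (p : ℤ) ∣ b := Int.natCast_dvd.2 (Nat.dvd_of_mem_primeFactors hp.1)
    refine ⟨Nat.prime_of_mem_primeFactors hp.1, h1, fun h2 => hp.2 ?_⟩
    rw [hd]
    exact dvd_sub (dvd_pow h2 (by norm_num)) (Dvd.dvd.mul_left h1 4)
  obtain ⟨pp, hpp⟩ : ∃ pp : Fin s.card → ℕ, ∀ i, pp i = (s.equivFin.symm i : ℕ) :=
    ⟨_, fun _ => rfl⟩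
  have hpps : ∀ i, pp i ∈ s := fun i => by rw [hpp]; exact (s.equivFin.symm i).2
  have hppinj : Function.Injective pp := by
    intro i j hij
    rw [hpp, hpp] at hij
    exact s.equivFin.symm.injective (Subtype.ext hij)
  have hsumpp : ∀ f : ℕ → ℝ, ∑ j, f (pp j) = ∑ p ∈ s, f p := by
    intro f
    rw [← Finset.sum_coe_sort s, ← Equiv.sum_comp s.equivFin.symm]
    exact Finset.sum_congr rfl fun j _ => by rw [hpp]
  obtain ⟨P, 𝔞, hQD⟩ := hQCU K τ β a b hF s.card pp hppinj (fun j => (hsmem _ (hpps j)).1)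
    (fun j => (hsmem _ (hpps j)).2.1) (fun j => (hsmem _ (hpps j)).2.2)
  have hb' : b.natAbs ≠ 0 := Int.natAbs_ne_zero.2 hb0
  have hd' : d.natAbs ≠ 0 := Int.natAbs_ne_zero.2 hd0
  have hna1 : Ideal.absNorm 𝔞 ≠ 0 := by
    intro h8
    have h6 := hQD.na
    rw [h8, zero_mul] at h6
    exact hb' h6.symm
  have hlogb' : Real.log (b.natAbs : ℝ) = Real.log |(b : ℝ)| := by
    rw [Nat.cast_natAbs, Int.cast_abs]
  have hlogd' : Real.log (d.natAbs : ℝ) = Real.log |(d : ℝ)| := by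
    rw [Nat.cast_natAbs, Int.cast_abs]
  have hna : Real.log (Ideal.absNorm 𝔞 : ℝ) ≤ R := by
    have h6 := hQD.na
    have h9 : ∀ j, (pp j : ℝ) ≠ 0 := fun j => by
      have := (hsmem _ (hpps j)).1.pos
      positivity
    have h8 : ((Ideal.absNorm 𝔞 * ∏ j, pp j ^ (b.natAbs.factorization (pp j)) : ℕ) : ℝ) =
        (b.natAbs : ℝ) := by rw [h6]
    have h10 := congrArg Real.log h8
    rw [Nat.cast_mul, Nat.cast_prod, Real.log_mul (by exact_mod_cast hna1)
      (Finset.prod_ne_zero_iff.2 fun j _ => by rw [Nat.cast_pow]; exact pow_ne_zero _ (h9 j)),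
      Real.log_prod (fun j _ => by rw [Nat.cast_pow]; exact pow_ne_zero _ (h9 j)),
      qmn_log b.natAbs, ← Finset.sum_filter_add_sum_filter_not b.natAbs.primeFactors
        (fun p : ℕ => ((p : ℤ) ∣ d)), ← hs] at h10
    have h11 : ∑ j, Real.log ((pp j ^ (b.natAbs.factorization (pp j)) : ℕ) : ℝ) =
        ∑ p ∈ s, (b.natAbs.factorization p : ℝ) * Real.log p := by
      rw [← hsumpp fun p => (b.natAbs.factorization p : ℝ) * Real.log p]
      exact Finset.sum_congr rfl fun j _ => by rw [Nat.cast_pow, Real.log_pow]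
    rw [h11] at h10
    linarith
  have hsumlog : ∑ j, Real.log (pp j) ≤ R' := by
    rw [hsumpp fun p => Real.log (p : ℝ), hs]
    linarith
  have hi : ∀ i, |Real.log ‖σ i (β : K)‖| ≤ S := by
    intro i
    have h0 : |Real.log x0| ≤ S := abs_le.2 ⟨by linarith, by linarith⟩
    have h1 : |Real.log x1| ≤ S := by
      rw [← hS0, abs_of_nonneg hS00]
      linarith
    fin_cases i
    · simpa [hx0] using h0
    · simpa [hx1] using h1
  have hj : ∀ j, (b.natAbs.factorization (pp j) : ℝ) * Real.log (pp j) ≤ S := by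
    intro j
    have h2 : (b.natAbs.factorization (pp j) : ℝ) * Real.log (pp j) ≤
        Real.log (b.natAbs : ℝ) := by
      rw [qmn_log b.natAbs]
      refine Finset.single_le_sum (f := fun p : ℕ => (b.natAbs.factorization p : ℝ) *
        Real.log (p : ℝ)) (fun q hq => mul_nonneg (Nat.cast_nonneg _) (Real.log_nonneg (by
          exact_mod_cast (Nat.prime_of_mem_primeFactors hq).one_lt.le))) ?_
      have := hpps j
      rw [hs, Finset.mem_filter] at this
      exact this.1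
    rw [hlogb'] at h2
    linarith
  have hνR : 314928 * R ^ 10 * sM = 12 * R * (ν * R) := by rw [hν]; ring
  have hνR0 : 0 ≤ ν * R := by positivity
  -- the two cases
  rcases le_or_gt |(d : ℝ)| (Real.exp S0) with hcase | hcase
  · have hT : ‖σ 0 (β : K) / σ 1 (β : K) - 1‖ ≤ Real.exp (-(S0 / 2)) := by
      have hne : σ 1 (β : K) ≠ 0 := by
        rw [← norm_ne_zero_iff, ← hx1]
        linarith
      have h1 : σ 0 (β : K) / σ 1 (β : K) - 1 = (σ 0 (β : K) - σ 1 (β : K)) / σ 1 (β : K) := by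
        field_simp
      rw [h1, norm_div, ← hx1, ← hexp, div_le_iff₀ (Real.exp_pos _), ← Real.exp_add]
      rw [← E3] at hcase
      have h2 : ‖σ 0 (β : K) - σ 1 (β : K)‖ ^ 2 ≤ (Real.exp (S0 / 2)) ^ 2 := by
        rw [← Real.exp_nat_mul]
        refine hcase.trans_eq ?_
        congr 1
        push_cast
        ring
      have h3 := le_of_sq_le_sq h2 (Real.exp_pos _).le
      refine h3.trans_eq ?_
      congr 1
      ring
    have h1 := hTA s.card K τ β a b pp P 𝔞 hQD hroot σ hσ R' S ν R (S0 / 2) (by linarith)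
      (by linarith) hsumlog hR1 hna (by linarith) hS1 (by linarith) hi hj hIDν hν1 (by linarith)
      hT (by
        have := mul_le_mul_of_nonneg_right (show (1 : ℝ) ≤ R' by linarith) hS00
        linarith)
    rw [← hE] at h1
    calc S ≤ 3 * S0 := hS3
      _ ≤ 6 * (C2 * ν * R * E) := by linarith
      _ = 6 * (C2 * (ν * R) * E) := by ring
      _ ≤ 12 * R * ((C1 + C2) * (ν * R) * B * E) := by
          have e1 : C2 * (ν * R) * E ≤ (C1 + C2) * (ν * R) * B * E := by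
            refine mul_le_mul_of_nonneg_right ?_ (by linarith)
            calc C2 * (ν * R) ≤ (C1 + C2) * (ν * R) :=
                  mul_le_mul_of_nonneg_right (by linarith) hνR0
              _ ≤ (C1 + C2) * (ν * R) * B := le_mul_of_one_le_right (by positivity) hB
          have e2 : 0 ≤ (C1 + C2) * (ν * R) * B * E := by positivity
          have e3 := mul_le_mul_of_nonneg_right hR1 e2
          linarith
      _ = 12 * R * (ν * R) * (C1 + C2) * B * E := by ring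
      _ = _ := by rw [← hνR]; ring
  · have hlogdS : S0 < Real.log |(d : ℝ)| := by
      rw [Real.lt_log_iff_exp_lt (by linarith [Real.exp_pos S0])]
      exact hcase
    rw [← hlogd', qmn_log d.natAbs, ← Finset.sum_filter_add_sum_filter_not d.natAbs.primeFactors
        (fun q : ℕ => ((q : ℤ) ∣ b))] at hlogdS
    obtain ⟨T, hT⟩ : ∃ T : Finset ℕ, T = d.natAbs.primeFactors.filter
      (fun q : ℕ => ¬ ((q : ℤ) ∣ b)) := ⟨_, rfl⟩
    rw [← hT] at hlogdS
    have hcard : (T.card : ℝ) ≤ 2 * R := by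
      have h1 : (T.card : ℝ) ≤ (d.natAbs.primeFactors.card : ℝ) := by
        rw [hT]
        exact_mod_cast Finset.card_filter_le _ _
      have h2 : (d.natAbs.primeFactors.card : ℝ) * Real.log 2 ≤
          ∑ q ∈ d.natAbs.primeFactors, Real.log q := by
        rw [← nsmul_eq_mul]
        refine Finset.card_nsmul_le_sum _ (fun p : ℕ => Real.log (p : ℝ)) _ fun p hp => ?_
        refine Real.log_le_log (by norm_num) ?_
        exact_mod_cast (Nat.prime_of_mem_primeFactors hp).two_le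
      have h3 : (0 : ℝ) ≤ T.card := Nat.cast_nonneg _
      have h4 := mul_le_mul_of_nonneg_left hlog2'.le h3
      have h5 : (T.card : ℝ) * Real.log 2 ≤ (d.natAbs.primeFactors.card : ℝ) * Real.log 2 :=
        mul_le_mul_of_nonneg_right h1 (by linarith)
      linarith
    obtain ⟨q, hqT, hqS⟩ := qmn_pig T (fun q => (d.natAbs.factorization q : ℝ) * Real.log q)
      (S0 / (4 * R)) (2 * R) (by positivity) hcard (by
        have e1 : 2 * R * (S0 / (4 * R)) = S0 / 2 := by field_simp; ring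
        rw [e1]
        linarith)
    rw [hT, Finset.mem_filter] at hqT
    obtain ⟨hqd, hqb⟩ := hqT
    have hqp := Nat.prime_of_mem_primeFactors hqd
    have hqdz : (q : ℤ) ∣ d := Int.natCast_dvd.2 (Nat.dvd_of_mem_primeFactors hqd)
    have hqR : Real.log q ≤ R' := by
      have := Finset.single_le_sum (f := fun p : ℕ => Real.log (p : ℝ)) hlq hqd
      linarith
    rw [div_le_iff₀ (by positivity)] at hqS
    have h0 := hTP s.card K τ β a b pp P 𝔞 hQD hroot σ hσ R' S ν R (by linarith)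
      (by linarith) hsumlog hR1 hna (by linarith) hS1 (by linarith) hi hj hIDν hν1 q hqp
    rw [← hd] at h0
    have hv0 : 0 ≤ (d.natAbs.factorization q : ℝ) * Real.log q := by
      have := hlq q hqd
      positivity
    have h1 := h0 hqdz hqb hqR (by
      have e1 := mul_le_mul_of_nonneg_right hRR' hv0
      have e2 : 0 ≤ R' * ((d.natAbs.factorization q : ℝ) * Real.log q) :=
        mul_nonneg (by linarith) hv0
      linarith)
    rw [← hE] at h1
    have hqB : (if Odd (d.natAbs.factorization q) then 1 else (q : ℝ)) ≤ B := by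
      split_ifs with hodd
      · exact hB
      · exact hq q hqd hqb (Nat.not_odd_iff_even.1 hodd)
    have h2 : (d.natAbs.factorization q : ℝ) * Real.log q ≤ C1 * ν * R * B * E := by
      refine h1.trans (mul_le_mul_of_nonneg_right (mul_le_mul_of_nonneg_left hqB ?_) (by linarith))
      positivity
    calc S ≤ 3 * S0 := hS3
      _ ≤ 3 * ((d.natAbs.factorization q : ℝ) * Real.log q * (4 * R)) := by linarith
      _ ≤ 3 * (C1 * ν * R * B * E * (4 * R)) := by
          have := mul_le_mul_of_nonneg_right h2 (show 0 ≤ 4 * R by linarith)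
          linarith
      _ = 12 * R * (C1 * (ν * R) * B * E) := by ring
      _ ≤ 12 * R * ((C1 + C2) * (ν * R) * B * E) := by
          refine mul_le_mul_of_nonneg_left ?_ (by linarith)
          refine mul_le_mul_of_nonneg_right ?_ (by linarith)
          refine mul_le_mul_of_nonneg_right ?_ (by linarith)
          exact mul_le_mul_of_nonneg_right (by linarith) hνR0
      _ = 12 * R * (ν * R) * (C1 + C2) * B * E := by ring
      _ = _ := by rw [← hνR]; ring

theorem st_QMN (hQTP : ST_QTP) (hQTA : ST_QTA) (hQFX : ST_QFX) (hQEM : ST_QEM) (hQDI : ST_QDI)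
    (hQID : ST_QID) (hQRO : ST_QRO) (hQCU : ST_QCU) (_hCLA : ST_CLA) : ST_QMN := by
  intro δ hδ
  obtain ⟨δ2, hδ2⟩ : ∃ δ2 : ℝ, δ2 = min δ 1 / 28 := ⟨_, rfl⟩
  have hδ20 : 0 < δ2 := by
    rw [hδ2]
    have : 0 < min δ 1 := lt_min hδ one_pos
    positivity
  have hδ28 : 28 * δ2 ≤ 1 := by
    rw [hδ2]
    have := min_le_right δ 1
    linarith
  have hδδ : 28 * δ2 ≤ δ := by
    rw [hδ2]
    have := min_le_left δ 1
    linarith
  obtain ⟨C4, hC4, hcore⟩ := qmn_core hQTP hQTA hQEM hQDI hQID hQCU δ2 hδ20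
  obtain ⟨Cf, hCf⟩ : ∃ Cf : ℝ, Cf = C4 ^ 2 * ((Nat.factorial 10 : ℝ) / δ2 ^ 10) := ⟨_, rfl⟩
  have hCf0 : 0 < Cf := by
    rw [hCf]
    positivity
  have hlog8 : Real.log 8 ≤ 2.1 := by
    have := Real.log_two_lt_d9
    rw [show (8 : ℝ) = 2 ^ 3 by norm_num, Real.log_pow]
    push_cast
    linarith
  refine ⟨3 * Cf + 4 / δ + 1, by
    have : 0 < 4 / δ := by positivity
    linarith, ?_⟩
  intro a b d hd hb hn R B hB hq hR
  have hd0 : d ≠ 0 := by
    intro h
    exact hn 0 (by rw [h]; norm_num)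
  obtain ⟨K, iK, iN, τ, β, hF⟩ := hQFX a b hb (by rw [← hd]; exact hn)
  obtain ⟨F1, F2, F3, F4⟩ := qmn_sums b d hb hd0 R hR
  have hlq : ∀ q ∈ d.natAbs.primeFactors, 0 ≤ Real.log (q : ℝ) := fun q hq =>
    Real.log_nonneg (by exact_mod_cast (Nat.prime_of_mem_primeFactors hq).one_lt.le)
  have hR1 : 1 ≤ R := by
    have := Finset.sum_nonneg hlq
    linarith
  obtain ⟨hM1, hM2⟩ := qmn_M d.natAbs
  have hcore' := hcore K τ β a b d hF hd hd0
  obtain ⟨M, hM⟩ : ∃ M : ℕ, M = ∏ q ∈ d.natAbs.primeFactors,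
    q ^ (d.natAbs.factorization q % 2) := ⟨_, rfl⟩
  rw [← hM] at hM1 hM2 hcore' ⊢
  have hM1' : (1 : ℝ) ≤ (M : ℝ) := by exact_mod_cast hM1
  obtain ⟨sM, hsM⟩ : ∃ sM : ℝ, sM = Real.sqrt (M : ℝ) := ⟨_, rfl⟩
  rw [← hsM] at hcore' ⊢
  have hsM1 : 1 ≤ sM := by
    rw [hsM, ← Real.sqrt_one]
    exact Real.sqrt_le_sqrt hM1'
  have hlsM : Real.log sM ≤ R := by
    rw [hsM, Real.log_sqrt (by linarith)]
    linarith
  have hb1 : (1 : ℝ) ≤ |(b : ℝ)| := by
    have := Int.one_le_abs hb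
    exact_mod_cast this
  have hsum0 : 0 < |(a : ℝ)| + |(b : ℝ)| + |(d : ℝ)| := by
    have := abs_nonneg (a : ℝ)
    have := abs_nonneg (d : ℝ)
    linarith
  have hsB : 1 ≤ sM * B := one_le_mul_of_one_le_of_one_le hsM1 hB
  have hEp : 0 < Real.exp (δ * R) := Real.exp_pos _
  by_cases hroot : ∀ k : ℤ, k ≠ 0 → ((β : K) / τ (β : K)) ^ k ≠ 1
  · obtain ⟨B0, hB0⟩ : ∃ B0 : ℝ, B0 = min B (Real.exp R) := ⟨_, rfl⟩
    have hB01 : 1 ≤ B0 := by
      rw [hB0]
      exact le_min hB (Real.one_le_exp (by linarith))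
    have hB0B : B0 ≤ B := by rw [hB0]; exact min_le_left _ _
    have hB0R : Real.log B0 ≤ R := by
      rw [Real.log_le_iff_le_exp (by linarith), hB0]
      exact min_le_right _ _
    have hq0 : ∀ q ∈ d.natAbs.primeFactors, ¬ (q : ℤ) ∣ b → Even (d.natAbs.factorization q) →
        (q : ℝ) ≤ B0 := by
      intro q hqd hqb hev
      rw [hB0]
      refine le_min (hq q hqd hqb hev) ?_
      rw [← Real.log_le_iff_le_exp (by
        exact_mod_cast (Nat.prime_of_mem_primeFactors hqd).pos)]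
      have := Finset.single_le_sum (f := fun p : ℕ => Real.log (p : ℝ)) hlq hqd
      linarith
    obtain ⟨S0, hS0, h1, h2⟩ := hcore' hroot R B0 hB01 hq0 hR
    have h3 := qmn_grow C4 δ2 R sM B0 (1 + 2 * S0) hδ20 hδ28 hC4 hR1 hsM1 hlsM hB01 hB0R
      (by linarith) h2
    rw [← hCf] at h3
    have h4 : Real.log (|(a : ℝ)| + |(b : ℝ)| + |(d : ℝ)|) ≤ 2.1 + 2 * S0 := by
      have e1 := Real.log_le_log hsum0 h1
      rw [Real.log_mul (by norm_num) (Real.exp_pos _).ne', Real.log_exp] at e1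
      have e2 : Real.log 7 ≤ Real.log 8 := Real.log_le_log (by norm_num) (by norm_num)
      linarith
    have h5 : Cf * sM * B0 * Real.exp (28 * δ2 * R) ≤ Cf * sM * B * Real.exp (δ * R) := by
      refine mul_le_mul (mul_le_mul_of_nonneg_left hB0B (by positivity))
        (Real.exp_le_exp.2 (mul_le_mul_of_nonneg_right hδδ (by linarith))) (Real.exp_pos _).le
        (by positivity)
    have h6 : 3 * (Cf * sM * B * Real.exp (δ * R)) ≤
        (3 * Cf + 4 / δ + 1) * sM * B * Real.exp (δ * R) := by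
      have e1 : 0 ≤ (4 / δ + 1) * sM * B * Real.exp (δ * R) := by positivity
      have e2 : (3 * Cf + 4 / δ + 1) * sM * B * Real.exp (δ * R) =
        3 * (Cf * sM * B * Real.exp (δ * R)) + (4 / δ + 1) * sM * B * Real.exp (δ * R) := by ring
      rw [e2]
      linarith
    linarith
  · push Not at hroot
    obtain ⟨k, hk, hk1⟩ := hroot
    obtain ⟨t, ht1, ht4, htd⟩ := hQRO K τ β a b hF k hk hk1
    rw [← hd] at htd
    have hbd : b ∣ d := ⟨t, htd⟩
    have hlogb : Real.log |(b : ℝ)| ≤ R := by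
      have e1 : Real.log |(b : ℝ)| = Real.log (b.natAbs : ℝ) := by
        rw [Nat.cast_natAbs, Int.cast_abs]
      have e2 : b.natAbs.primeFactors.filter (fun p : ℕ => (p : ℤ) ∣ d) =
          b.natAbs.primeFactors := by
        refine Finset.filter_true_of_mem fun p hp => ?_
        exact (Int.natCast_dvd.2 (Nat.dvd_of_mem_primeFactors hp)).trans hbd
      rw [e2, ← qmn_log] at F2
      linarith
    have ht4' : |(t : ℝ)| ≤ 4 := by exact_mod_cast ht4
    have hdb : |(d : ℝ)| ≤ 4 * |(b : ℝ)| := by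
      rw [htd, Int.cast_mul, abs_mul]
      have := mul_le_mul_of_nonneg_left ht4' (abs_nonneg (b : ℝ))
      linarith
    have hab : |(a : ℝ)| ≤ 3 * |(b : ℝ)| := by
      have e1 : ((a : ℝ)) ^ 2 = (d : ℝ) + 4 * b := by
        rw [hd]
        push_cast
        ring
      have e2 : |(a : ℝ)| ^ 2 ≤ (3 * |(b : ℝ)|) ^ 2 := by
        rw [sq_abs, e1]
        have e3 : (d : ℝ) ≤ |(d : ℝ)| := le_abs_self _
        have e4 : (b : ℝ) ≤ |(b : ℝ)| := le_abs_self _
        have e5 : |(b : ℝ)| ≤ |(b : ℝ)| * |(b : ℝ)| := le_mul_of_one_le_left (abs_nonneg _) hb1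
        have e6 : (3 * |(b : ℝ)|) ^ 2 = 9 * (|(b : ℝ)| * |(b : ℝ)|) := by ring
        rw [e6]
        linarith
      exact le_of_sq_le_sq e2 (by positivity)
    have h4 : Real.log (|(a : ℝ)| + |(b : ℝ)| + |(d : ℝ)|) ≤ 4 * R := by
      have e1 : |(a : ℝ)| + |(b : ℝ)| + |(d : ℝ)| ≤ 8 * |(b : ℝ)| := by linarith
      have e2 := Real.log_le_log hsum0 e1
      rw [Real.log_mul (by norm_num) (by linarith)] at e2
      linarith
    have h5 : R ≤ 1 / δ * Real.exp (δ * R) := by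
      have e1 := Real.add_one_le_exp (δ * R)
      rw [one_div, inv_mul_eq_div, le_div_iff₀ hδ]
      linarith
    have h6 : 4 / δ * Real.exp (δ * R) ≤ (3 * Cf + 4 / δ + 1) * sM * B * Real.exp (δ * R) := by
      refine mul_le_mul_of_nonneg_right ?_ hEp.le
      have e1 : 0 < 4 / δ := by positivity
      calc 4 / δ ≤ 3 * Cf + 4 / δ + 1 := by linarith
        _ ≤ (3 * Cf + 4 / δ + 1) * (sM * B) := le_mul_of_one_le_right (by linarith) hsB
        _ = _ := by ring
    have h7 : 4 * (1 / δ * Real.exp (δ * R)) = 4 / δ * Real.exp (δ * R) := by ring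
    linarith

end Pool.Helper99.SZ
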